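import Mathlib
import Pool.Agent.H.MP_339821_gt.A

set_option autoImplicit false

namespace Pool.Agent.Results.MP_339821_gt.Frechet

open Cardinal

/-- some countable union of discrete subspaces is dense. -/
def dSep (X : Type) [TopologicalSpace X] : Prop :=
  ∃ F : ℕ → Set X, (∀ n, DiscreteTopology ↥(F n)) ∧ Dense (⋃ n, F n)

/-- the selective version. -/
def DSep (X : Type) [TopologicalSpace X] : Prop :=
  ∀ D : ℕ → Set X, (∀ n, Dense (D n)) →
    ∃ F : ℕ → Set X, (∀ n, F n ⊆ D n ∧ DiscreteTopology ↥(F n)) ∧ Dense (⋃ n, F n)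

theorem result : ∃ (X : Type) (_ : TopologicalSpace X),
    T35Space X ∧ FrechetUrysohnSpace X ∧ dSep X ∧ ¬ DSep X := by
  refine ⟨Pool.Agent.H.MP_339821_gt.Sg ℝ, inferInstance, inferInstance,
    Pool.Agent.H.MP_339821_gt.frechet, Pool.Agent.H.MP_339821_gt.dsep, fun h => ?_⟩
  obtain ⟨D, hD, hD'⟩ := Pool.Agent.H.MP_339821_gt.not_D (I := ℝ)
      (by rw [mk_real, continuum_power_aleph0])
  obtain ⟨F, h1, h2⟩ := h (fun _ => D) (fun _ => hD)
  exact hD' F h1 h2

end Pool.Agent.Results.MP_339821_gt.Frechet
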