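import Mathlib
import Pool.Agent.H.MP_339821_gt.B

set_option autoImplicit false

namespace Pool.Agent.Results.MP_339821_gt.Sigma

open Cardinal

/-- the Sigma-product of the Cantor cube with index set I, as a subspace of the cube. -/
abbrev SigmaProd (I : Type) : Type := {x : I → Bool // {i | x i = true}.Countable}

/-- D-separability. -/
def DSep (X : Type) [TopologicalSpace X] : Prop :=
  ∀ D : ℕ → Set X, (∀ n, Dense (D n)) →
    ∃ F : ℕ → Set X, (∀ n, F n ⊆ D n ∧ DiscreteTopology ↥(F n)) ∧ Dense (⋃ n, F n)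

theorem result :
    (∀ I : Type, ℵ₀ ≤ #I → #I ^ ℵ₀ = #I → ¬ DSep (SigmaProd I)) ∧
    (∀ I : Type, (#I).ord.cof = ℵ₀ → DSep (SigmaProd I)) := by
  refine ⟨fun I h1 h2 h => ?_, fun I h => Pool.Agent.H.MP_339821_gt.yes_D h⟩
  have : Infinite I := aleph0_le_mk_iff.1 h1
  obtain ⟨D, hD, hD'⟩ := Pool.Agent.H.MP_339821_gt.not_D (I := I) h2
  obtain ⟨F, h1, h2⟩ := h (fun _ => D) (fun _ => hD)
  exact hD' F h1 h2

end Pool.Agent.Results.MP_339821_gt.Sigma
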